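import Pool.Agent.H78.KP.Stmts
import Pool.Agent.H33.KG.BAS
import Pool.Agent.H88.KG.COV

/-!
# Project KP, module EV3: continuity in time of the velocity
-/

set_option autoImplicit false

open MeasureTheory Set Filter Topology
open scoped ContDiff

namespace Pool.Agent.H78.KP

open Pool.Agent.H84 Pool.Agent.H84.Sym Pool.Agent.H84.Sym.P2x Pool.Agent.H19.KL
open Pool.Agent.H73.KG Pool.Agent.H20.KH

section

variable {E : Type} [NormedAddCommGroup E] [InnerProductSpace ℝ E]
    [FiniteDimensional ℝ E] [MeasurableSpace E] [BorelSpace E]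

omit [FiniteDimensional ℝ E] [MeasurableSpace E] [BorelSpace E] in
theorem EV3_tst {u : E → ℝ} (hu : Tst u) : GC u := by
  refine ⟨hu.1.continuous, ?_⟩
  obtain ⟨C, hC⟩ := hu.2.exists_bound_of_continuous hu.1.continuous
  exact Gr.of_bdd (A := C) fun x => by simpa [Real.norm_eq_abs] using hC x

theorem EV3_gen_const {ι : Type} [Fintype ι] (b : OrthonormalBasis ι ℝ E) (U : E → ℝ) (c : ℝ)
    (s : ℝ) (θ : E) : gen b U (fun (_ : ℝ) (_ : E) => c) s θ = 0 := by
  unfold gen
  have hD : ∀ e : E, D e (fun _ : E => c) = fun _ => 0 := by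
    intro e
    funext x
    simp [D]
  have hD0 : ∀ e : E, D e (fun _ : E => (0 : ℝ)) = fun _ => 0 := by
    intro e
    funext x
    simp [D]
  simp [hD, hD0]

theorem EV3_gen_sum (hRGC : RGCStmt E) {ι : Type} [Fintype ι] (b : OrthonormalBasis ι ℝ E)
    (U : E → ℝ) {κ : Type} (S : Finset κ) (F : κ → ℝ → E → ℝ) (hF : ∀ i, RG (F i)) (s : ℝ)
    (θ : E) (hs : 0 < s) :
    gen b U (fun s θ => ∑ i ∈ S, F i s θ) s θ = ∑ i ∈ S, gen b U (F i) s θ := by
  classical
  obtain ⟨hc, hadd, hmul, -, hgen, -, -⟩ := hRGC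
  induction S using Finset.induction_on with
  | empty =>
    simp only [Finset.sum_empty]
    exact EV3_gen_const b U 0 s θ
  | insert a S ha ih =>
    have h1 := (hgen _ _ U (hF a) (cov_rg_sum hc hadd S F hF) ι b s θ hs).1
    have h2 : (fun s θ => ∑ i ∈ insert a S, F i s θ) =
        fun s θ => F a s θ + ∑ i ∈ S, F i s θ := by
      funext s θ
      rw [Finset.sum_insert ha]
    rw [h2, h1, ih, Finset.sum_insert ha]

/-- the derivatives of a regular function -/
theorem EV3_gcD (hRGC : RGCStmt E) {F : ℝ → E → ℝ} (hF : RG F) {s : ℝ} (hs : 0 < s) (e : E) :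
    GC (fun θ => D e (F s) θ) := by
  obtain ⟨h1, h2, h3, h4⟩ := hRGC.2.2.2.2.2.1 F hF s hs
  constructor
  · have h5 : Continuous (fderiv ℝ (F s)) := h2.continuous_fderiv (by norm_num)
    exact h5.clm_apply continuous_const
  · refine Gr.of_le (Gr.mul (Gr.of_bdd (F := fun _ : E => ‖e‖) (A := ‖e‖) fun _ => by simp) h3)
      fun θ => ?_
    rw [abs_of_nonneg (mul_nonneg (norm_nonneg e) (norm_nonneg _))]
    have h6 := (fderiv ℝ (F s) θ).le_opNorm e
    rw [Real.norm_eq_abs] at h6
    rw [mul_comm]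
    exact h6

/-- the bound at time zero -/
theorem EV3_zero {U : E → ℝ} {t : ℝ} (hU : PP U t) (hC : CovLe U 1) {ι : Type} [Fintype ι]
    (b : OrthonormalBasis ι ℝ E) {u : E → ℝ} (hu : GC u) :
    ∑ i, (cv U u (li (b i))) ^ 2 ≤ cv U u u := by
  classical
  obtain ⟨⟨C, hP⟩, hp⟩ := hU
  set v : ι → ℝ := fun i => H73.KG.cv U u (li (b i)) with hv
  set w : E := ∑ i, v i • b i with hw
  have h1 : cv U u (li w) = ∑ i, v i ^ 2 := by
    have hl : li w = fun z => ∑ i, v i * li (b i) z := by
      funext z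
      unfold li
      rw [hw, sum_inner]
      exact Finset.sum_congr rfl fun i _ => by rw [real_inner_smul_left]
    have hsum : ∀ s : Finset ι,
        cv U (fun z => ∑ i ∈ s, v i * li (b i) z) u = ∑ i ∈ s, v i * cv U (li (b i)) u := by
      intro s
      induction s using Finset.induction_on with
      | empty =>
        simp only [Finset.sum_empty]
        unfold H73.KG.cv
        simp
      | insert a s ha ih =>
        simp only [Finset.sum_insert ha]
        rw [BAS_add hP ((GC.const (v a)).mul (BAS_li (b a)))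
          (GC.sum fun i => (GC.const (v i)).mul (BAS_li (b i))) hu, BAS_smul, ih]
    rw [BAS_symm, hl, hsum]
    refine Finset.sum_congr rfl fun i _ => ?_
    rw [BAS_symm, pow_two]
  have h2 : ‖w‖ ^ 2 = ∑ i, v i ^ 2 := by
    rw [hw, BAS_norm b v]
    simp only [dotProduct, pow_two]
  have h3 := BAS_cs hP hp hu (BAS_li w)
  have h4 := hC w
  have h5 := BAS_nonneg hP hp hu
  rw [h1] at h3
  rw [h2, one_mul] at h4
  have h6 : 0 ≤ ∑ i, v i ^ 2 := Finset.sum_nonneg fun i _ => sq_nonneg _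
  have h7 : (∑ i, v i ^ 2) ^ 2 ≤ cv U u u * ∑ i, v i ^ 2 :=
    h3.trans (mul_le_mul_of_nonneg_left h4 h5)
  rcases h6.lt_or_eq with h8 | h8
  · by_contra h9
    rw [not_le] at h9
    nlinarith
  · rw [← h8]
    exact h5

end

theorem EV3_thm (E : Type) [NormedAddCommGroup E] [InnerProductSpace ℝ E]
    [FiniteDimensional ℝ E] [MeasurableSpace E] [BorelSpace E]
    (hCVD : CVDStmt E) (hMQB : MQBStmt E) (hDYN : DYNStmt E) (hRGC : RGCStmt E)
    (hBAY : BAYStmt E) (hCOV : COVStmt E) (hPWB : PWBStmt E) (hCVR : CVRStmt E) :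
    EV3Stmt E := by
  intro U t hU hC ι _ b u hu r hr
  classical
  have hgu : GC u := EV3_tst hu
  have hRGC' := hRGC
  obtain ⟨hc, hadd, hmul, -, hgen, hreg, hcongr⟩ := hRGC
  have ht : 0 < t := by
    obtain ⟨⟨C, hP⟩, -⟩ := hU
    exact hP.pos
  set β : ℝ := 5 * (Fintype.card ι : ℝ) ^ 2 / t ^ 2 with hβ
  have hβ0 : 0 ≤ β := by positivity
  have rv : ∀ i, RG (fun s θ => cv (pw U s θ) u (li (b i))) := fun i => (hCVD U t hU u hgu ι b i).1
  have rvv : ∀ i, RG (fun s θ => cv (pw U s θ) u (li (b i)) * cv (pw U s θ) u (li (b i))) :=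
    fun i => hmul _ _ (rv i) (rv i)
  have rG : RG (fun s θ => ∑ i, cv (pw U s θ) u (li (b i)) * cv (pw U s θ) u (li (b i))) :=
    cov_rg_sum hc hadd Finset.univ _ rvv
  have rV : RG (fun s θ => cv (pw U s θ) u u) := hCVR U t hU u u hgu hgu
  have rA : ∀ i k, RG (fun s θ => cv (pw U s θ) (li (b i)) (li (b k))) :=
    fun i k => hCVR U t hU _ _ (BAS_li _) (BAS_li _)
  -- the generator
  have hg1 : ∀ s θ, 0 < s → gen b U (fun s θ => ∑ i, cv (pw U s θ) u (li (b i)) *
      cv (pw U s θ) u (li (b i))) s θ = ∑ i, (2 * (cv (pw U s θ) u (li (b i)) *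
        (-∑ k, cv (pw U s θ) u (li (b k)) * cm b (pw U s θ) i k)) +
        ∑ k, D (b k) (fun θ => cv (pw U s θ) u (li (b i))) θ *
          D (b k) (fun θ => cv (pw U s θ) u (li (b i))) θ) := by
    intro s θ hs
    rw [EV3_gen_sum hRGC' b U Finset.univ
      (fun i s θ => cv (pw U s θ) u (li (b i)) * cv (pw U s θ) u (li (b i))) rvv s θ hs]
    refine Finset.sum_congr rfl fun i _ => ?_
    rw [(hgen _ _ U (rv i) (rv i) ι b s θ hs).2, (hCVD U t hU u hgu ι b i).2.2 s θ hs]
    ring
  -- growth of the generator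
  have hg2 : ∀ s, 0 < s → GC (gen b U (fun s θ => ∑ i, cv (pw U s θ) u (li (b i)) *
      cv (pw U s θ) u (li (b i))) s) := by
    intro s hs
    have e : gen b U (fun s θ => ∑ i, cv (pw U s θ) u (li (b i)) *
      cv (pw U s θ) u (li (b i))) s = fun θ => ∑ i, (2 * (cv (pw U s θ) u (li (b i)) *
        (-∑ k, cv (pw U s θ) u (li (b k)) * cm b (pw U s θ) i k)) +
        ∑ k, D (b k) (fun θ => cv (pw U s θ) u (li (b i))) θ *
          D (b k) (fun θ => cv (pw U s θ) u (li (b i))) θ) := by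
      funext θ
      exact hg1 s θ hs
    rw [e]
    refine GC.sum fun i => GC.add ((GC.const 2).mul (GC.mul (hreg _ (rv i) s hs).1
      (GC.neg (GC.sum fun k => GC.mul (hreg _ (rv k) s hs).1 (hreg _ (rA i k) s hs).1))))
      (GC.sum fun k => GC.mul (EV3_gcD hRGC' (rv i) hs (b k)) (EV3_gcD hRGC' (rv i) hs (b k)))
  -- bound for the generator
  have hg3 : ∀ s θ, 0 < s → gen b U (fun s θ => ∑ i, cv (pw U s θ) u (li (b i)) *
      cv (pw U s θ) u (li (b i))) s θ ≤ β * cv (pw U s θ) u u := by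
    intro s θ hs
    rw [hg1 s θ hs, Finset.sum_add_distrib]
    have hPs : PP (pw U s θ) (t + s) := (hPWB U t hU).1 s θ hs.le
    have h1 : ∑ i, 2 * (cv (pw U s θ) u (li (b i)) *
        (-∑ k, cv (pw U s θ) u (li (b k)) * cm b (pw U s θ) i k)) ≤ 0 := by
      obtain ⟨⟨C, hP⟩, hp⟩ := hPs
      have h2 := BAS_quad hP b (fun i => cv (pw U s θ) u (li (b i)))
      have h3 := BAS_nonneg hP hp (BAS_li (∑ i, cv (pw U s θ) u (li (b i)) • b i))
      have h4 : ∑ i, 2 * (cv (pw U s θ) u (li (b i)) *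
          (-∑ k, cv (pw U s θ) u (li (b k)) * cm b (pw U s θ) i k)) =
          -2 * ((fun i => cv (pw U s θ) u (li (b i))) ⬝ᵥ
            (cm b (pw U s θ)).mulVec (fun i => cv (pw U s θ) u (li (b i)))) := by
        simp only [dotProduct, Matrix.mulVec, Finset.mul_sum]
        refine Finset.sum_congr rfl fun i _ => ?_
        rw [← Finset.sum_neg_distrib, Finset.mul_sum, Finset.mul_sum]
        refine Finset.sum_congr rfl fun k _ => ?_
        ring
      rw [h4, h2]
      linarith
    have h5 : ∑ i, ∑ k, D (b k) (fun θ => cv (pw U s θ) u (li (b i))) θ *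
          D (b k) (fun θ => cv (pw U s θ) u (li (b i))) θ ≤ β * cv (pw U s θ) u u := by
      have hV0 : 0 ≤ cv (pw U s θ) u u := by
        obtain ⟨⟨C, hP⟩, hp⟩ := hPs
        exact BAS_nonneg hP hp hgu
      have h6 : ∀ i k, D (b k) (fun θ => cv (pw U s θ) u (li (b i))) θ *
          D (b k) (fun θ => cv (pw U s θ) u (li (b i))) θ ≤ 5 / t ^ 2 * cv (pw U s θ) u u := by
        intro i k
        rw [(hCVD U t hU u hgu ι b i).2.1 s θ hs.le k, ← pow_two]
        refine ((hMQB (pw U s θ) (t + s) hPs ι b i k i).2.2 u hgu).trans ?_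
        refine mul_le_mul_of_nonneg_right ?_ hV0
        exact div_le_div_of_nonneg_left (by norm_num) (by positivity)
          (pow_le_pow_left₀ ht.le (by linarith) 2)
      calc ∑ i, ∑ k, D (b k) (fun θ => cv (pw U s θ) u (li (b i))) θ *
            D (b k) (fun θ => cv (pw U s θ) u (li (b i))) θ
          ≤ ∑ _i : ι, ∑ _k : ι, 5 / t ^ 2 * cv (pw U s θ) u u :=
            Finset.sum_le_sum fun i _ => Finset.sum_le_sum fun k _ => h6 i k
        _ = β * cv (pw U s θ) u u := by
            simp only [Finset.sum_const, Finset.card_univ, nsmul_eq_mul]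
            rw [hβ]
            ring
    linarith
  -- the mean of the posterior variance
  have hV : ∀ s, 0 < s → EX U s (fun θ => cv (pw U s θ) u u) ≤ cv U u u := by
    intro s hs
    obtain ⟨-, h1⟩ := hCOV U t hU u u hgu hgu ι b s hs
    have h2 : 0 ≤ ∫ s in (0:ℝ)..s, EX U s (fun θ => ∑ i, cv (pw U s θ) u (li (b i)) *
      cv (pw U s θ) u (li (b i))) := by
      refine intervalIntegral.integral_nonneg hs.le fun r hr => ?_
      unfold EX
      exact integral_nonneg fun x => integral_nonneg fun g => Finset.sum_nonneg fun i _ =>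
        mul_self_nonneg _
    linarith
  -- integration
  obtain ⟨dG, cG, zG⟩ := hDYN U t hU _ rG
  have hanti : AntitoneOn (fun s => EX U s (fun θ => ∑ i, cv (pw U s θ) u (li (b i)) *
      cv (pw U s θ) u (li (b i))) - (β * cv U u u) * s) (Icc 0 r) := by
    refine antitoneOn_of_deriv_nonpos (convex_Icc 0 r) ?_ ?_ ?_
    · exact (cG.mono fun s hs => hs.1).sub (continuous_const.mul continuous_id).continuousOn
    · intro s hs
      rw [interior_Icc] at hs
      have h1 := (dG ι b s hs.1).sub ((hasDerivAt_id s).const_mul (β * cv U u u))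
      exact h1.differentiableAt.differentiableWithinAt
    · intro s hs
      rw [interior_Icc] at hs
      have h1 := (dG ι b s hs.1).sub ((hasDerivAt_id s).const_mul (β * cv U u u))
      have h2 := h1.deriv
      have h3 : EX U s (gen b U (fun s θ => ∑ i, cv (pw U s θ) u (li (b i)) *
          cv (pw U s θ) u (li (b i))) s) ≤ β * cv U u u := by
        have h4 := (hBAY U t hU s hs.1.le).2.2.2.2.1 _ (fun θ => β * cv (pw U s θ) u u)
          (hg2 s hs.1) ((GC.const β).mul (hreg _ rV s hs.1).1) (fun θ => hg3 s θ hs.1)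
        rw [(hBAY U t hU s hs.1.le).2.2.1 β (fun θ => cv (pw U s θ) u u)] at h4
        exact h4.trans (mul_le_mul_of_nonneg_left (hV s hs.1) hβ0)
      have h5 : deriv (fun s => EX U s (fun θ => ∑ i, cv (pw U s θ) u (li (b i)) *
          cv (pw U s θ) u (li (b i))) - (β * cv U u u) * s) s =
          EX U s (gen b U (fun s θ => ∑ i, cv (pw U s θ) u (li (b i)) *
          cv (pw U s θ) u (li (b i))) s) - β * cv U u u * 1 := h2
      rw [h5]
      linarith
  have h1 := hanti (left_mem_Icc.2 hr.le) (right_mem_Icc.2 hr.le) hr.le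
  simp only at h1
  rw [zG] at h1
  have h2 : ∑ i, cv (pw U 0 0) u (li (b i)) * cv (pw U 0 0) u (li (b i)) ≤ cv U u u := by
    rw [(hPWB U t hU).2.2]
    have h3 := EV3_zero hU hC b hgu
    simpa only [pow_two] using h3
  have h4 : EX U r (fun θ => ∑ i, (cv (pw U r θ) u (li (b i))) ^ 2) =
      EX U r (fun θ => ∑ i, cv (pw U r θ) u (li (b i)) * cv (pw U r θ) u (li (b i))) := by
    congr 1
    funext θ
    simp only [pow_two]
  rw [h4]
  have h5 : (1 + 5 * (Fintype.card ι : ℝ) ^ 2 / t ^ 2 * r) * cv U u u =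
      cv U u u + (β * cv U u u) * r := by
    rw [← hβ]
    ring
  rw [h5]
  linarith

end Pool.Agent.H78.KP
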